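import Mathlib

/-!
Minculete's inequality `π(xy)² ≤ π(x²) π(y²)` fails for infinitely many pairs `(x, x + 2)`.

If it held for all the pairs `(m - 1, m + 1)` with `m` large, then, since `m²` is not a prime,
`u m = π(m²) = π(m² - 1)` would satisfy `u m ² ≤ u (m - 1) u (m + 1)`; an unbounded sequence with
this property grows exponentially, but `u m ≤ m²`.
-/

set_option autoImplicit false
open Filter Topology

namespace Pool.Agent.Results.MP_93d35c_nt.FailsAtDistanceTwo

open Nat (primeCounting)

theorem primeCounting_sq (x : ℕ) : primeCounting (x * (x + 2)) = primeCounting ((x + 1) ^ 2) := by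
  have h : (x + 1) ^ 2 = x * (x + 2) + 1 := by ring
  have hnp : ¬ (x * (x + 2) + 1).Prime := by
    rw [← h]
    exact Nat.Prime.not_prime_pow (by norm_num)
  rw [h]
  show Nat.count Nat.Prime (x * (x + 2) + 1) = Nat.count Nat.Prime (x * (x + 2) + 1 + 1)
  rw [Nat.count_succ Nat.Prime (x * (x + 2) + 1), if_neg hnp, add_zero]

/-- For every `n₀` there is an integer `x ≥ n₀` with `π(x²) π((x+2)²) < π(x(x+2))²`. -/
theorem result : ∀ n₀ : ℕ, ∃ x : ℕ, n₀ ≤ x ∧
    primeCounting (x ^ 2) * primeCounting ((x + 2) ^ 2) < primeCounting (x * (x + 2)) ^ 2 := by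
  by_contra hcon
  push Not at hcon
  obtain ⟨n₀, hn⟩ := hcon
  obtain ⟨u, hu⟩ : ∃ u : ℕ → ℕ, u = fun m => primeCounting (m ^ 2) := ⟨_, rfl⟩
  have hu' : ∀ m, primeCounting (m ^ 2) = u m := fun m => by rw [hu]
  have hmono : Monotone u := by
    rw [hu]
    exact fun a b hab => Nat.monotone_primeCounting (Nat.pow_le_pow_left hab 2)
  have hlc : ∀ x, n₀ ≤ x → u (x + 1) ^ 2 ≤ u x * u (x + 2) := by
    intro x hx
    have := hn x hx
    rwa [primeCounting_sq, hu', hu', hu'] at this
  have hle : ∀ m, u m ≤ m ^ 2 := by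
    intro m
    rw [hu]
    show Nat.count Nat.Prime (m ^ 2 + 1) ≤ m ^ 2
    rw [Nat.count_succ' ]
    have : ¬ Nat.Prime 0 := Nat.not_prime_zero
    rw [if_neg this, add_zero]
    exact Nat.count_le _
  -- the sequence is unbounded
  have hunb : ∀ m, ∃ k, m ≤ k ∧ u k < u (k + 1) := by
    intro m
    by_contra hc
    push Not at hc
    have hconst : ∀ k, u (m + k) ≤ u m := by
      intro k
      induction k with
      | zero => simp
      | succ k ih => exact (hc (m + k) (by omega)).trans ih
    have htend := Nat.tendsto_primeCounting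
    obtain ⟨N, hN⟩ := (tendsto_atTop.mp htend (u m + 1)).exists_forall_of_atTop
    have h1 := hN ((m + N) ^ 2) (by nlinarith [Nat.zero_le m, Nat.zero_le N])
    have h2 := hconst N
    rw [hu'] at h1
    omega
  obtain ⟨M, hM, hlt⟩ := hunb (n₀ + 2)
  have hpos : ∀ m, 2 ≤ m → 0 < u m := by
    intro m hm
    have h4 : u 2 ≤ u m := hmono hm
    have : u 2 = 2 := by
      rw [hu]
      show primeCounting (2 ^ 2) = 2
      decide
    omega
  obtain ⟨r, hr⟩ : ∃ r : ℝ, r = (u (M + 1) : ℝ) / u M := ⟨_, rfl⟩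
  have hM0 : (0 : ℝ) < u M := by exact_mod_cast hpos M (by omega)
  have hr1 : 1 < r := by
    rw [hr, one_lt_div hM0]
    exact_mod_cast hlt
  have hratio : ∀ j, r * u (M + j) ≤ u (M + j + 1) := by
    intro j
    induction j with
    | zero =>
      rw [hr, add_zero, div_mul_cancel₀ _ hM0.ne']
    | succ j ih =>
      have h1 : ((u (M + j + 1) : ℝ)) ^ 2 ≤ u (M + j) * u (M + j + 2) := by
        exact_mod_cast hlc (M + j) (by omega)
      have h2 : (0 : ℝ) < u (M + j) := by exact_mod_cast hpos _ (by omega)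
      have h3 : (0 : ℝ) < u (M + j + 1) := by exact_mod_cast hpos _ (by omega)
      have h4 : (u (M + j) : ℝ) * (r * u (M + j + 1)) ≤ u (M + j) * u (M + j + 2) := by
        calc (u (M + j) : ℝ) * (r * u (M + j + 1)) = (r * u (M + j)) * u (M + j + 1) := by ring
          _ ≤ u (M + j + 1) * u (M + j + 1) := by gcongr
          _ ≤ _ := by rw [← sq]; exact h1
      exact le_of_mul_le_mul_left h4 h2
  have hexp : ∀ j, r ^ j ≤ u (M + j) := by
    intro j
    induction j with
    | zero =>
      rw [pow_zero, add_zero]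
      exact_mod_cast hpos M (by omega)
    | succ j ih =>
      calc r ^ (j + 1) = r * r ^ j := by ring
        _ ≤ r * u (M + j) := by gcongr
        _ ≤ u (M + (j + 1)) := hratio j
  have hlim := tendsto_pow_const_div_const_pow_of_one_lt 2 hr1
  have hr0 : 0 < r := by linarith
  have hev := (hlim.eventually (gt_mem_nhds (show (0 : ℝ) < 1 / r ^ M by positivity))).exists_forall_of_atTop
  obtain ⟨N, hN⟩ := hev
  have h1 := hN (M + N) (by omega)
  have h2 : (u (M + N) : ℝ) ≤ ((M + N : ℕ) : ℝ) ^ 2 := by exact_mod_cast hle (M + N)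
  have h3 := hexp N
  rw [div_lt_div_iff₀ (by positivity) (by positivity), one_mul, pow_add] at h1
  have h4 : r ^ M * r ^ N ≤ ((M + N : ℕ) : ℝ) ^ 2 * r ^ M := by
    rw [mul_comm]
    gcongr
    exact h3.trans h2
  linarith

end Pool.Agent.Results.MP_93d35c_nt.FailsAtDistanceTwo
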